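import Pool.Agent.KT3.StmtsD
import Pool.Agent.Helper13_NBT.IBF
import Pool.Agent.Helper64_NBT.IBI

/-!
# KT3, row ADI: invariance of the class AD
-/

set_option autoImplicit false

open Matrix Filter Topology

namespace Pool.Agent.KT3.H30

open Pool.Agent.PFS Pool.Agent.PFJ Pool.Agent.NBT

theorem adi (wii : WiiStmt) (lfi : LfiStmt) (lfm : LfmStmt) : AdiStmt := by
  intro n C Γ d hH w hw
  have hCC : CC C Γ := hH.toHI.toHK.toCC
  have hP : PCone C := hCC.toPCone
  obtain ⟨hL0, hL1⟩ := lfm n C Γ d hH w hw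
  obtain ⟨hW1, hW2, -⟩ := wii n C Γ 3 I01 d hH.toHI w hw
  refine ⟨⟨hw, fun x hx => ?_⟩, ?_⟩
  · obtain ⟨hwx, -⟩ := hL1 x hx
    obtain ⟨-, h2⟩ := Pool.Agent.NBT.H13.ibf n C hP 3 (up w x) hwx.pes.1
    obtain ⟨h3, h4⟩ := h2 I02
    refine ⟨_, h3, ?_⟩
    rw [h4]
    decide
  intro δ hA
  refine ⟨?_, ?_, ?_⟩
  · intro r hr
    refine ⟨(hW1 r hr).1, fun x hx => ?_⟩
    have hx' : Lf C w x := ((lfi n C Γ d hH w hw x).1 r hr).1 hx
    obtain ⟨hwx, -⟩ := hL1 x hx'
    obtain ⟨L, hL, hd⟩ := hA.bx x hx'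
    obtain ⟨h1, -⟩ := Pool.Agent.NBT.H13.ibf n C hP 3 (up w x) hwx.pes.1
    obtain ⟨-, -, -, h5⟩ := h1 I02 L hL
    have h6 := h5 (Function.update r 0 1) (fun m => by
      rcases eq_or_ne m 0 with rfl | hm
      · rw [Function.update_self]; exact one_pos
      · rw [Function.update_of_ne hm]; exact hr m)
    have e : (fun m => Function.update r 0 1 m • up w x m) = up (fun i => r i • w i) x := by
      funext m
      rcases eq_or_ne m 0 with rfl | hm
      · simp [up]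
      · simp [up, Function.update_of_ne hm]
    rw [e] at h6
    exact ⟨L, h6, hd⟩
  · intro g hg s hs
    refine ⟨(hW2 g hg s hs).1, fun x hx => ?_⟩
    obtain ⟨x', rfl⟩ : ∃ x', s • act g x' = x := by
      refine ⟨s⁻¹ • act g⁻¹ x, ?_⟩
      rw [CC.act_smul, smul_smul, mul_inv_cancel₀ hs.ne', one_smul, CC.act_act_inv]
    have hx' : Lf C w x' := ((lfi n C Γ d hH w hw x').2.1 g hg s hs).1 hx
    obtain ⟨hwx, -⟩ := hL1 x' hx'
    obtain ⟨L, hL, hd⟩ := hA.bx x' hx'
    have h1 := (Pool.Agent.NBT.H64.ibi n C Γ hCC 3 (up w x') (fun i => hwx.pes.1.cl i)).2.2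
      g hg s hs I02 L hL
    have e : (fun i => s • act g (up w x' i)) = up (fun i => s • act g (w i)) (s • act g x') := by
      funext m
      rcases eq_or_ne m 0 with rfl | hm
      · simp [up]
      · simp [up, Function.update_of_ne hm]
    rw [e] at h1
    refine ⟨img g L, h1, ?_⟩
    rw [(Pool.Agent.PFJ.H32.img n).1 g L]
    exact hd
  · intro x hx
    obtain ⟨hwx, -, h3, -⟩ := hL1 x hx
    refine ⟨hwx, fun y hy => ?_⟩
    obtain ⟨L, hL, hd⟩ := hA.bx y ((h3 y).1 hy)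
    refine ⟨L, ?_, hd⟩
    have e : up (up w x) y = up w y := by
      unfold up
      rw [Function.update_idem]
    rw [e]
    exact hL

end Pool.Agent.KT3.H30
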