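import Pool.Agent.KT3.StmtsD

/-!
# KT3, row ZPM: monotonicity of the approximate boxes
-/

set_option autoImplicit false

open Matrix Filter Topology

namespace Pool.Agent.KT3.H30

open Pool.Agent.PFS Pool.Agent.PFJ Pool.Agent.NBT

theorem zpm : ZpmStmt := by
  intro n C hP w x hx hw δ ε ε' M M' T T' hε hM' hMM hT hZ
  obtain ⟨L, hL, hxL, h2L, h⟩ := hZ
  have hE : Real.exp (-T') ≤ Real.exp (-T) := Real.exp_le_exp.2 (by linarith)
  have hE0 : 0 < Real.exp (-T') := Real.exp_pos _
  have hE1 : 0 < Real.exp (-T) := Real.exp_pos _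
  refine ⟨L, hL, hxL, h2L, fun u hu h1 h2 => ?_⟩
  have a1 : u + Real.exp (-T) • w 1 ∈ closure C := by
    have e : u + Real.exp (-T) • w 1 =
        (u + Real.exp (-T') • w 1) + (Real.exp (-T) - Real.exp (-T')) • w 1 := by
      module
    rw [e]
    exact hP.cl_add h1 (hP.cl_smul (hw 1) (by linarith))
  have a2 : M • (x + w 2 + Real.exp (-T) • w 1) - u ∈ closure C := by
    have e : M • (x + w 2 + Real.exp (-T) • w 1) - u =
        (M' • (x + w 2 + Real.exp (-T') • w 1) - u) +
          ((M - M') • (x + w 2) + (M * Real.exp (-T) - M' * Real.exp (-T')) • w 1) := by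
      module
    rw [e]
    refine hP.cl_add h2 (hP.cl_add (hP.cl_smul (hP.cl_add hx (hw 2)) (by linarith))
      (hP.cl_smul (hw 1) ?_))
    have h3 : M' * Real.exp (-T') ≤ M * Real.exp (-T) :=
      mul_le_mul hMM hE hE0.le (hM'.trans hMM)
    linarith
  have a3 := h u hu a1 a2
  have e : u + ε' • (x + w 2) = (u + ε • (x + w 2)) + (ε' - ε) • (x + w 2) := by
    module
  rw [e]
  exact hP.cl_add a3 (hP.cl_smul (hP.cl_add hx (hw 2)) (by linarith))

end Pool.Agent.KT3.H30
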